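import Mathlib
import Pool.Agent.Run7.h988.DR.Tower

/-!
# Block form of Stark's lemma and equality of orders and multiplicities
-/

set_option autoImplicit false
set_option linter.unusedSectionVars false

namespace Run7.h988.EQ

open Pool.Agent.R389 Pool.Agent.H302R2 Pool.Agent.H302R3 Pool.Agent.H541R3.ART Pool.Agent.W446.AS Filter Topology
open Run7.h988.DR

section adj

variable {H : Type} [Group H] [Finite H] {N : Subgroup H} [N.Normal] {μ : N →* ℂˣ}

/-- adjointness of the part -/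
lemma part_adj (hμ : ∀ (g : H) (n : N), μ (MulAut.conjNormal g n) = μ n) {a b : H → ℂ} (ha : Virt a) (hb : Virt b) :
    pr (part N μ a) b = pr a (part N μ b) := by
  have h1 : pr (part N μ a) (part N μ b) = pr a (part N μ b) :=
    pr_part (virt_part hμ hb).conj (fun g n => part_mul_mem N μ b g n)
  have h2 : pr (part N μ b) (part N μ a) = pr b (part N μ a) :=
    pr_part (virt_part hμ ha).conj (fun g n => part_mul_mem N μ a g n)
  rw [← h1, pr_comm (part N μ a) (part N μ b), h2, pr_comm]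

/-- the part is a Heilbronn function -/
lemma ha_part (hμ : ∀ (g : H) (n : N), μ (MulAut.conjNormal g n) = μ n) {a : H → ℂ} (ha : Virt a)
    (hnat : ∀ (U : Subgroup H) (ψ : U →* ℂˣ), N ≤ U → ∃ n : ℕ, pr a (ind U (fun h => ((ψ h : ℂˣ) : ℂ))) = n) :
    HA (part N μ a) where
  conj := (virt_part hμ ha).conj
  nat U ψ := by
    classical
    rw [part_adj hμ ha (virt_ind U (AddSubgroup.subset_closure (lin_irr ψ)))]
    by_cases hcomp : ∀ (x : H) (hU : x ∈ U) (hK : x ∈ N), ψ ⟨x, hU⟩ = μ ⟨x, hK⟩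
    · obtain ⟨κ, hκ1, hκ2⟩ := glue N U ψ μ hμ hcomp
      rw [part_ind μ hμ U ψ κ hκ1 hκ2]
      exact hnat _ κ le_sup_right
    · push Not at hcomp
      obtain ⟨x, hU, hK, hne⟩ := hcomp
      rw [part_ind_zero μ hμ U ψ hU hK hne]
      refine ⟨0, ?_⟩
      rw [pr_comm, pr_zero_left]
      simp

/-- Heilbronn functions of degree at most one -/
lemma ha_small {t : H → ℂ} (ht : HA t) (hv : Virt t) :
    (t 1 = 0 → t = 0) ∧ (t 1 = 1 → ∃ lam : H →* ℂˣ, t = lc lam) := by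
  have hc : part (⊥ : Subgroup H) 1 t = t := part_of_const ⊥ 1 (by
    rintro g ⟨n, hn⟩
    rw [Subgroup.mem_bot] at hn
    subst hn
    rw [mul_one, MonoidHom.one_apply, Units.val_one, mul_one])
  have hinv : ∀ (g : H) (n : (⊥ : Subgroup H)), (1 : (⊥ : Subgroup H) →* ℂˣ) (MulAut.conjNormal g n) = (1 : (⊥ : Subgroup H) →* ℂˣ) n :=
    fun g n => rfl
  refine ⟨fun h => ?_, fun h => ?_⟩
  · have h1 := ht.part_zero (N := ⊥) (μ := 1) hinv (by rw [hc]; exact h)
    rwa [hc] at h1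
  · obtain ⟨lam, h1⟩ := ht.part_one hv (N := ⊥) (μ := 1) hinv (by rw [hc]; exact h)
    rw [hc] at h1
    exact ⟨lam, h1⟩

end adj

variable {G : Type} [Group G] [Finite G]

/-- nonnegativity for the stabilizer -/
lemma nat_res {θ : G → ℂ} (hc : ∀ g x : G, θ (x * g * x⁻¹) = θ g) {N S : Subgroup G} (hNS : N ≤ S)
    (hnat : ∀ (U : Subgroup G) (ψ : U →* ℂˣ), N ≤ U → ∃ n : ℕ, pr θ (ind U (fun h => ((ψ h : ℂˣ) : ℂ))) = n)
    (U : Subgroup S) (ψ : U →* ℂˣ) (hU : N.subgroupOf S ≤ U) :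
    ∃ n : ℕ, pr (fun x : S => θ x) (ind U (fun h => ((ψ h : ℂˣ) : ℂ))) = n := by
  obtain ⟨n, hn⟩ := hnat (U.map S.subtype) (ψ.comp
    (U.equivMapOfInjective S.subtype S.subtype_injective).symm.toMonoidHom) (by
      intro x hx
      exact ⟨⟨x, hNS hx⟩, hU (Subgroup.mem_subgroupOf.mpr hx), rfl⟩)
  refine ⟨n, ?_⟩
  rw [← frob' S _ hc, ind_ind]
  exact hn

/-- the value of the part at one -/
lemma part_at_one {θ : G → ℂ} (hc : ∀ g x : G, θ (x * g * x⁻¹) = θ g) {N : Subgroup G} [N.Normal] (μ : N →* ℂˣ) :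
    part (N.subgroupOf (stb μ)) (rmu (le_stb μ) μ) (fun x : stb μ => θ x) 1 = pr θ (ind N (lc μ)) := by
  have : Fintype N := Fintype.ofFinite N
  rw [part_res (le_stb μ) μ θ 1, frob' N _ hc, part_eq, pr_eq]
  congr 1
  refine Finset.sum_congr rfl fun n _ => ?_
  rw [Subgroup.coe_one, one_mul]
  change _ = θ n * ((μ n⁻¹ : ℂˣ) : ℂ)
  rw [map_inv]

/-- **Block form of Stark's lemma**, with multiplicities -/
theorem block {θ v : G → ℂ} (hθ : Virt θ) (hv : v ∈ AddSubmonoid.closure (Irr G)) (N : Subgroup G) [N.Normal]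
    (hnat : ∀ (U : Subgroup G) (ψ : U →* ℂˣ), N ≤ U → ∃ n : ℕ, pr θ (ind U (fun h => ((ψ h : ℂˣ) : ℂ))) = n)
    (μ : N →* ℂˣ) (r : ℕ) (hr : r ≤ 1) (h1 : pr θ (ind N (lc μ)) = r) (h2 : pr v (ind N (lc μ)) = r)
    (h3 : r = 1 → ∀ ψ : stb μ →* ℂˣ, (∀ n : N, ψ ⟨n, le_stb μ n.2⟩ = μ n) →
      pr v (ind (stb μ) (lc ψ)) ≠ 0 → pr θ (ind (stb μ) (lc ψ)) ≠ 0)
    {f : G → ℂ} (hf : Virt f) :
    pr θ (∑ ν ∈ orb μ, part N ν f) = pr v (∑ ν ∈ orb μ, part N ν f) := by
  classical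
  have hvv := virt_of_closure hv
  have hNH : N ≤ stb μ := le_stb μ
  have hμ' : ∀ (g : stb μ) (n : N.subgroupOf (stb μ)), rmu hNH μ (MulAut.conjNormal g n) = rmu hNH μ n :=
    rmu_inv hNH μ (fun g hg n => stb_inv hg n)
  have hθS : Virt (fun x : stb μ => θ x) := Virt.comp hθ (stb μ).subtype
  have hvS : Virt (fun x : stb μ => v x) := Virt.comp hvv (stb μ).subtype
  have hat : HA (part (N.subgroupOf (stb μ)) (rmu hNH μ) (fun x : stb μ => θ x)) :=
    ha_part hμ' hθS (nat_res hθ.conj hNH hnat)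
  have hvnat : ∀ (U : Subgroup G) (ψ : U →* ℂˣ), N ≤ U → ∃ n : ℕ, pr v (ind U (fun h => ((ψ h : ℂˣ) : ℂ))) = n := by
    intro U ψ _
    refine nat_closure (fun χ hχ => ?_) hv
    obtain ⟨n, hn⟩ := mono_nat U ψ hχ
    exact ⟨n, by rw [pr_comm]; exact hn⟩
  have haw : HA (part (N.subgroupOf (stb μ)) (rmu hNH μ) (fun x : stb μ => v x)) :=
    ha_part hμ' hvS (nat_res hvv.conj hNH hvnat)
  have ht1 := part_at_one hθ.conj μ
  have hw1 := part_at_one hvv.conj μ
  rw [h1] at ht1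
  rw [h2] at hw1
  have hadj : ∀ {a : G → ℂ}, (∀ g x : G, a (x * g * x⁻¹) = a g) → ∀ {F : stb μ → ℂ},
      (∀ g x : stb μ, F (x * g * x⁻¹) = F g) →
      (∀ g, ∀ n : N.subgroupOf (stb μ), F (g * n) = F g * ((rmu hNH μ n : ℂˣ) : ℂ)) →
      pr a (ind (stb μ) F) = pr (part (N.subgroupOf (stb μ)) (rmu hNH μ) (fun x : stb μ => a x)) F := by
    intro a ha F hF hF'
    rw [frob' (stb μ) F ha, pr_part hF hF']
  have htw : part (N.subgroupOf (stb μ)) (rmu hNH μ) (fun x : stb μ => θ x) =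
      part (N.subgroupOf (stb μ)) (rmu hNH μ) (fun x : stb μ => v x) := by
    rcases Nat.le_one_iff_eq_zero_or_eq_one.mp hr with rfl | rfl
    · rw [(ha_small hat (virt_part hμ' hθS)).1 (by rw [ht1]; simp),
        (ha_small haw (virt_part hμ' hvS)).1 (by rw [hw1]; simp)]
    · obtain ⟨a, ha⟩ := (ha_small hat (virt_part hμ' hθS)).2 (by rw [ht1]; simp)
      obtain ⟨b, hb⟩ := (ha_small haw (virt_part hμ' hvS)).2 (by rw [hw1]; simp)
      have hbp : ∀ g, ∀ n : N.subgroupOf (stb μ), lc b (g * n) = lc b g * ((rmu hNH μ n : ℂˣ) : ℂ) := by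
        intro g n
        rw [← hb]
        exact part_mul_mem _ _ _ g n
      have hbc : ∀ g x : stb μ, lc b (x * g * x⁻¹) = lc b g := Irr.conj (lin_irr b)
      have hext : ∀ n : N, b ⟨n, le_stb μ n.2⟩ = μ n := by
        intro n
        have h4 := hbp 1 ⟨⟨n, le_stb μ n.2⟩, Subgroup.mem_subgroupOf.mpr n.2⟩
        rw [one_mul] at h4
        apply Units.ext
        change lc b ⟨n, le_stb μ n.2⟩ = _
        refine h4.trans ?_
        change ((b 1 : ℂˣ) : ℂ) * _ = _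
        rw [map_one, Units.val_one, one_mul]
        rfl
      have h5 := h3 rfl b hext (by
        rw [hadj hvv.conj hbc hbp, hb]
        rw [show pr (lc b) (lc b) = 1 from pr_self (lin_irr b)]
        exact one_ne_zero)
      rw [hadj hθ.conj hbc hbp, ha] at h5
      have h6 : lc a = lc b := by
        by_contra hne
        exact h5 (pr_ne (lin_irr a) (lin_irr b) hne)
      rw [ha, hb, h6]
  have h7 : ∑ ν ∈ orb μ, part N ν f = ind (stb μ) (part (N.subgroupOf (stb μ)) (rmu hNH μ) (fun x : stb μ => f x)) := by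
    funext g
    rw [Finset.sum_apply, sum_orb μ hf.conj g]
    congr 1
    funext x
    exact (part_res hNH μ f x).symm
  have hFc : ∀ g x : stb μ, part (N.subgroupOf (stb μ)) (rmu hNH μ) (fun x : stb μ => f x) (x * g * x⁻¹) =
      part (N.subgroupOf (stb μ)) (rmu hNH μ) (fun x : stb μ => f x) g :=
    (virt_part hμ' (Virt.comp hf (stb μ).subtype)).conj
  rw [h7, hadj hθ.conj hFc (fun g n => part_mul_mem _ _ _ g n), hadj hvv.conj hFc (fun g n => part_mul_mem _ _ _ g n), htw]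

end Run7.h988.EQ
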