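import Mathlib
import Pool.Agent.Run7.h988.EQ.Basic

/-!
# Equality of orders and multiplicities along towers with abelian layers
-/

set_option autoImplicit false
set_option linter.unusedSectionVars false

namespace Run7.h988.EQ

open Pool.Agent.R389 Pool.Agent.H302R2 Pool.Agent.H302R3 Pool.Agent.H541R3.ART Pool.Agent.W446.AS Filter Topology
open Run7.h988.DR

variable {G : Type} [Group G] [Finite G]

/-- one layer, for a general set of functions -/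
lemma layer_gen (𝒮 : AddSubmonoid (G → ℂ)) (N M : Subgroup G) [N.Normal] [M.Normal] (hMN : M ≤ N) (hab : ⁅N, N⁆ ≤ M)
    (f : G → ℂ)
    (hc : ∀ μ : N →* ℂˣ, μ ≠ 1 → (∀ m, ∀ hm : m ∈ M, μ ⟨m, hMN hm⟩ = 1) → ∑ ν ∈ orb μ, part N ν f ∈ 𝒮)
    (hN : inv N f ∈ 𝒮) : inv M f ∈ 𝒮 := by
  classical
  have : Fintype (N →* ℂˣ) := Fintype.ofFinite _
  let T : Finset (N →* ℂˣ) := (Finset.univ.filter
      (fun μ : N →* ℂˣ => ∀ m, ∀ hm : m ∈ M, μ ⟨m, hMN hm⟩ = 1)).erase 1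
  have hT1 : (1 : N →* ℂˣ) ∈ Finset.univ.filter
      (fun μ : N →* ℂˣ => ∀ m, ∀ hm : m ∈ M, μ ⟨m, hMN hm⟩ = 1) := by
    rw [Finset.mem_filter]
    exact ⟨Finset.mem_univ _, fun m hm => rfl⟩
  have h1 : inv M f = inv N f + ∑ μ ∈ T, part N μ f := by
    funext g
    rw [Pi.add_apply, Finset.sum_apply, inv_layer N M hMN hab f g, ← part_one,
      Finset.add_sum_erase _ (fun μ => part N μ f g) hT1]
  rw [h1]
  refine add_mem hN (orb_induct'' _ (fun μ => part N μ f) _ T rfl ?_ ?_)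
  · intro μ hμ ν hν
    obtain ⟨x, rfl⟩ := mem_orb.mp hν
    obtain ⟨hμ1, hμ2⟩ := Finset.mem_erase.mp hμ
    rw [Finset.mem_filter] at hμ2
    refine Finset.mem_erase.mpr ⟨fun h => hμ1 ?_, Finset.mem_filter.mpr ⟨Finset.mem_univ _, fun m hm => ?_⟩⟩
    · have h2 : cmu x⁻¹ (cmu x μ) = cmu x⁻¹ 1 := by rw [h]
      rw [← cmu_mul, inv_mul_cancel, cmu_one] at h2
      rw [h2]
      ext n
      rw [cmu_apply, MonoidHom.one_apply, MonoidHom.one_apply]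
    · rw [cmu_apply]
      have h3 : x⁻¹ * m * x ∈ M := by
        have h4 := (inferInstance : M.Normal).conj_mem m hm x⁻¹
        rwa [inv_inv] at h4
      have h5 := hμ2.2 _ h3
      rw [← h5]
      congr 1
      apply Subtype.ext
      rw [MulAut.conjNormal_apply]
      change x⁻¹ * m * x⁻¹⁻¹ = x⁻¹ * m * x
      rw [inv_inv]
  · intro μ hμ
    obtain ⟨hμ1, hμ2⟩ := Finset.mem_erase.mp hμ
    rw [Finset.mem_filter] at hμ2
    exact hc μ hμ1 hμ2.2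

/-- the orbit of the trivial character -/
lemma orb_one (N : Subgroup G) [N.Normal] : orb (1 : N →* ℂˣ) = {1} := by
  ext ν
  rw [mem_orb, Finset.mem_singleton]
  constructor
  · rintro ⟨x, rfl⟩
    ext k
    rw [cmu_apply, MonoidHom.one_apply, MonoidHom.one_apply]
  · rintro rfl
    exact ⟨1, cmu_one 1⟩

/-- a tower, for a general set of functions -/
lemma tower_gen (𝒮 : AddSubmonoid (G → ℂ)) (n : ℕ) (N : ℕ → Subgroup G) [∀ i, (N i).Normal]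
    (hdesc : ∀ i, N (i + 1) ≤ N i) (hab : ∀ i, ⁅N i, N i⁆ ≤ N (i + 1)) (f : G → ℂ)
    (hf : ∀ g, ∀ k ∈ N (n + 1), f (g * k) = f g) (h0 : inv (N 0) f ∈ 𝒮)
    (hc : ∀ i ≤ n, ∀ μ : N i →* ℂˣ, μ ≠ 1 → (∀ m, ∀ hm : m ∈ N (i + 1), μ ⟨m, hdesc i hm⟩ = 1) →
      ∑ ν ∈ orb μ, part (N i) ν f ∈ 𝒮) : f ∈ 𝒮 := by
  have hall : ∀ i, i ≤ n + 1 → inv (N i) f ∈ 𝒮 := by
    intro i
    induction i with
    | zero => exact fun _ => h0
    | succ i ih =>
      intro hi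
      have hi' : i ≤ n := by omega
      exact layer_gen 𝒮 (N i) (N (i + 1)) (hdesc i) (hab i) f (hc i hi') (ih (by omega))
  have h1 := hall (n + 1) le_rfl
  rwa [inv_of_const (N (n + 1)) hf] at h1

/-- characters which do not occur -/
lemma orb_zero (N : Subgroup G) [N.Normal] (μ : N →* ℂˣ)
    {V : Type} [AddCommGroup V] [Module ℂ V] [FiniteDimensional ℂ V] (ρ : Representation ℂ G V)
    (h : ∑ᶠ n : N, ρ.character n * (((μ n)⁻¹ : ℂˣ) : ℂ) = 0) : ∑ ν ∈ orb μ, part N ν ρ.character = 0 := by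
  classical
  have hc : ∀ g x : G, ρ.character (x * g * x⁻¹) = ρ.character g :=
    (virt_of_closure (char_memP _ ρ rfl)).conj
  have h0 := part_rep_zero (RingHom.id ℂ) N μ ρ h
  have h1 : lmu (RingHom.id ℂ) μ = μ := by
    ext n
    rfl
  rw [h1] at h0
  refine Finset.sum_eq_zero fun ν hν => ?_
  obtain ⟨x, rfl⟩ := mem_orb.mp hν
  funext g
  rw [← part_conj μ hc g x]
  exact congrFun h0 _

variable {l : (G → ℂ) → ℂ → ℂ} {c : ℂ}

/-- orders and the function `θ` -/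
lemma ord_pr (hl : ∀ χ ∈ Irr G, MeromorphicAt (l χ) c ∧ meromorphicOrderAt (l χ) c ≠ ⊤) {f : G → ℂ}
    {m : (G → ℂ) → ℕ} (hm : IsDecomp f m) :
    ∃ k : ℤ, meromorphicOrderAt (fun s => ∏ᶠ χ ∈ Irr G, l χ s ^ m χ) c = k ∧
      pr (theta (ords l c) : G → ℂ) f = k := by
  have h3 := order_prod hl (irrF G) subset_rfl (fun χ => (m χ : ℤ))
  have h4 : (fun s => ∏ᶠ χ ∈ Irr G, l χ s ^ m χ) = fun z => ∏ χ ∈ irrF G, l χ z ^ ((m χ : ℕ) : ℤ) := by
    funext s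
    rw [finprod_irr (fun χ => l χ s ^ m χ)]
    exact Finset.prod_congr rfl fun χ _ => by rw [zpow_natCast]
  refine ⟨_, by rw [h4]; exact h3.2, ?_⟩
  rw [pr_ords (m := fun χ => (m χ : ℤ)) (fun χ hχ => by rw [hm.pr hχ]; simp)]

/-- a natural multiplicity -/
lemma nat_pr {a b : G → ℂ} (ha : a ∈ AddSubmonoid.closure (Irr G)) (hb : b ∈ AddSubmonoid.closure (Irr G)) :
    ∃ n : ℕ, pr a b = n := by
  classical
  refine nat_closure (fun χ hχ => ?_) ha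
  have h1 : ∀ η ∈ Irr G, ∃ n : ℕ, pr η χ = n := by
    intro η hη
    by_cases he : η = χ
    · exact ⟨1, by rw [he, pr_self hχ]; simp⟩
    · exact ⟨0, by rw [pr_ne hη hχ he]; simp⟩
  obtain ⟨n, hn⟩ := nat_closure h1 hb
  exact ⟨n, by rw [pr_comm]; exact hn⟩

/-- **Main theorem** -/
theorem main_eq {v : G → ℂ} (hv : v ∈ AddSubmonoid.closure (Irr G)) (n : ℕ) (N : ℕ → Subgroup G) [∀ i, (N i).Normal]
    (hdesc : ∀ i, N (i + 1) ≤ N i) (hab : ∀ i, ⁅N i, N i⁆ ≤ N (i + 1))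
    (hmon : ∀ (U : Subgroup G) (ψ : U →* ℂˣ), N n ≤ U → ∃ k : ℕ, pr (theta (ords l c) : G → ℂ) (ind U (lc ψ)) = k)
    {V : Type} [AddCommGroup V] [Module ℂ V] [FiniteDimensional ℂ V] (ρ : Representation ℂ G V)
    (hρ : ∀ g, ∀ k ∈ N (n + 1), ρ.character (g * k) = ρ.character g)
    (hbase : pr (theta (ords l c) : G → ℂ) (inv (N 0) ρ.character) = pr v (inv (N 0) ρ.character) ∨
      ∃ r : ℕ, r ≤ 1 ∧ pr (theta (ords l c) : G → ℂ) (ind (N 0) (lc 1)) = r ∧ pr v (ind (N 0) (lc 1)) = r ∧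
        (r = 1 → ∀ ψ : stb (1 : N 0 →* ℂˣ) →* ℂˣ, (∀ k : N 0, ψ ⟨k, le_stb 1 k.2⟩ = 1) →
          pr v (ind (stb 1) (lc ψ)) ≠ 0 → pr (theta (ords l c) : G → ℂ) (ind (stb 1) (lc ψ)) ≠ 0))
    (hlam : ∀ i ≤ n, ∀ μ : N i →* ℂˣ, μ ≠ 1 → (∀ m, ∀ hm : m ∈ N (i + 1), μ ⟨m, hdesc i hm⟩ = 1) →
      ∑ᶠ k : N i, ρ.character k * (((μ k)⁻¹ : ℂˣ) : ℂ) ≠ 0 →
      ∃ r : ℕ, r ≤ 1 ∧ pr (theta (ords l c) : G → ℂ) (ind (N i) (lc μ)) = r ∧ pr v (ind (N i) (lc μ)) = r ∧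
        (r = 1 → ∀ ψ : stb μ →* ℂˣ, (∀ k : N i, ψ ⟨k, le_stb μ k.2⟩ = μ k) →
          pr v (ind (stb μ) (lc ψ)) ≠ 0 → pr (theta (ords l c) : G → ℂ) (ind (stb μ) (lc ψ)) ≠ 0)) :
    pr (theta (ords l c) : G → ℂ) ρ.character = pr v ρ.character := by
  classical
  have hanti : Antitone N := antitone_nat_of_succ_le hdesc
  have hf : ρ.character ∈ AddSubmonoid.closure (Irr G) := char_memP _ ρ rfl
  have hfv := virt_of_closure hf
  let Z : AddSubmonoid (G → ℂ) :=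
    { carrier := {f | pr (theta (ords l c) : G → ℂ) f = pr v f}
      add_mem' := by
        intro a b ha hb
        change pr _ (a + b) = pr _ (a + b)
        rw [pr_comm, pr_add, pr_comm, pr_comm b, pr_comm v, pr_add, pr_comm a v, pr_comm b v]
        exact congrArg₂ (· + ·) ha hb
      zero_mem' := by
        change pr _ 0 = pr _ 0
        rw [pr_comm, pr_zero_left, pr_comm, pr_zero_left] }
  have hblock : ∀ i ≤ n, ∀ μ : N i →* ℂˣ, (∃ r : ℕ, r ≤ 1 ∧ pr (theta (ords l c) : G → ℂ) (ind (N i) (lc μ)) = r ∧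
      pr v (ind (N i) (lc μ)) = r ∧
        (r = 1 → ∀ ψ : stb μ →* ℂˣ, (∀ k : N i, ψ ⟨k, le_stb μ k.2⟩ = μ k) →
          pr v (ind (stb μ) (lc ψ)) ≠ 0 → pr (theta (ords l c) : G → ℂ) (ind (stb μ) (lc ψ)) ≠ 0)) →
      ∑ ν ∈ orb μ, part (N i) ν ρ.character ∈ Z := by
    rintro i hi μ ⟨r, hr, h1, h2, h3⟩
    exact block (theta_virt _) hv (N i) (fun U ψ hU => hmon U ψ ((hanti hi).trans hU)) μ r hr h1 h2 h3 hfv
  refine tower_gen Z n N hdesc hab ρ.character hρ ?_ ?_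
  · rcases hbase with h | h
    · exact h
    · have h1 := hblock 0 (Nat.zero_le n) 1 h
      rw [orb_one, Finset.sum_singleton, part_one] at h1
      exact h1
  · intro i hi μ hμ hμ'
    by_cases hz : ∑ᶠ k : N i, ρ.character k * (((μ k)⁻¹ : ℂˣ) : ℂ) = 0
    · rw [orb_zero (N i) μ ρ hz]
      exact zero_mem _
    · exact hblock i hi μ (hlam i hi μ hμ hμ' hz)

end Run7.h988.EQ
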